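import Mathlib
import Pool.Agent.Results.MP_8dfbdc_an.Cone

set_option autoImplicit false

namespace Pool.Agent.Results.MP_735b88_an.NoRetr

open Filter Topology Pool.Agent.Results.MP_8dfbdc_an.Cone

theorem result : ∃ f : (Fin 3 → ℝ) → Fin 3 → ℝ, (∀ p q, ‖f p - f q‖ ≤ ‖p - q‖) ∧
    AnalyticOnNhd ℝ f Set.univ ∧ f 0 = 0 ∧
    ¬∃ r : (Fin 3 → ℝ) → Fin 3 → ℝ, Set.range r = {p | f p = p} ∧ (∀ a, f a = a → r a = a) ∧
      DifferentiableAt ℝ r 0 := by
  refine ⟨f, fun p q => (pi_norm_le_iff_of_nonneg (norm_nonneg _)).2 fun i => ?_,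
    fun p _ => ?_, (fix 0).2 (by simp), ?_⟩
  · fin_cases i
    · exact norm_le_pi_norm (p - q) 0
    · exact norm_le_pi_norm (p - q) 1
    · exact lip q p
  · have c : ∀ i : Fin 3, AnalyticAt ℝ (fun q : X => q i) p := fun i =>
      (ContinuousLinearMap.proj (R := ℝ) (φ := fun _ : Fin 3 => ℝ) i).analyticAt p
    refine analyticAt_pi_iff.2 fun i => ?_
    fin_cases i
    · exact c 0
    · exact c 1
    · exact ((c 2).add (analyticAt_const.mul ((c 0).pow 3))).div
        (analyticAt_const.add ((((c 0).pow 2).add ((c 1).pow 2)).add ((c 2).pow 2)))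
        (by positivity)
  rintro ⟨r, h1, h2, h3⟩
  have dA := h3.hasFDerivAt
  generalize fderiv ℝ r 0 = A at dA
  have r0 := h2 0 ((fix 0).2 (by simp))
  have line : ∀ w : X, HasDerivAt (fun t : ℝ => t • w) w 0 := fun w => by
    simpa using (hasDerivAt_id (0 : ℝ)).smul_const w
  have d : ∀ w, HasDerivAt (r ∘ fun t : ℝ => t • w) (A w) 0 := fun w =>
    HasFDerivAt.comp_hasDerivAt_of_eq 0 dA (line w) (by simp)
  have k1 : ∀ u, f u = u → A u = u := fun u hu => by
    refine (d u).unique ?_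
    rw [show (r ∘ fun t : ℝ => t • u) = fun t : ℝ => t • u from funext fun t => h2 _ ?_]
    · exact line u
    · rw [fix] at hu ⊢
      simp only [Pi.smul_apply, smul_eq_mul]
      linear_combination t ^ 3 * hu
  have k2 : ∀ w, f (A w) = A w := fun w => by
    have cl : IsClosed {p : X | p 2 * (p 0 ^ 2 + p 1 ^ 2 + p 2 ^ 2) = 101 / 1000 * p 0 ^ 3} :=
      isClosed_eq (by fun_prop) (by fun_prop)
    refine (fix _).2 (cl.mem_of_tendsto (d w).tendsto_slope_zero (.of_forall fun t => ?_))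
    have := (fix _).1 (h1.subset ⟨t • w, rfl⟩)
    simp only [zero_add, Function.comp_apply, zero_smul, r0, sub_zero, Set.mem_ofPred_eq,
      Pi.smul_apply, smul_eq_mul]
    linear_combination t⁻¹ ^ 3 * this
  have := k2 (![10, 0, 1] + ![0, 1, 0])
  rw [map_add, k1 _ ((fix _).2 (by simp; norm_num)), k1 _ ((fix _).2 (by simp)), fix] at this
  simp at this
  norm_num at this

end Pool.Agent.Results.MP_735b88_an.NoRetr
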